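import Pool.Agent.H30.AV.Targets3

/-!
# Homogeneous ideals of polynomial rings, forms with coefficients in a ring of forms
-/

set_option autoImplicit false

namespace Pool.Agent.H30.AV

open MvPolynomial SC Pool.Agent.H27.LV

section Hom

variable {L τ : Type} [Field L]

attribute [local instance] MvPolynomial.gradedAlgebra

lemma isHom_iff (I : Ideal (MvPolynomial τ L)) :
    IsHom I ↔ I.IsHomogeneous (homogeneousSubmodule τ L) := by
  constructor
  · intro h i r hr
    have h1 : (DirectSum.decompose (homogeneousSubmodule τ L) r i : MvPolynomial τ L) =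
        homogeneousComponent i r := decomposition.decompose'_apply r i
    rw [h1]
    exact h r hr i
  · intro h g hg d
    have h1 : (DirectSum.decompose (homogeneousSubmodule τ L) g d : MvPolynomial τ L) =
        homogeneousComponent d g := decomposition.decompose'_apply g d
    rw [← h1]
    exact h d hg

lemma IsHom.sup {I J : Ideal (MvPolynomial τ L)} (hI : IsHom I) (hJ : IsHom J) :
    IsHom (I ⊔ J) := by
  rw [isHom_iff] at *
  exact hI.sup hJ

lemma isHom_span {s : Set (MvPolynomial τ L)} (h : ∀ f ∈ s, ∃ d, f.IsHomogeneous d) :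
    IsHom (Ideal.span s) := by
  rw [isHom_iff]
  exact Ideal.homogeneous_span _ _ fun f hf => by
    obtain ⟨d, hd⟩ := h f hf
    exact ⟨d, hd⟩

end Hom

section HomZ

variable {k A : Type} [Field k] {n q : ℕ}

lemma HomZ.mul {M N : ℕ} {G H : MvPolynomial A (MvPolynomial (Zv n) k)} (hG : HomZ M G)
    (hH : HomZ N H) : HomZ (M + N) (G * H) := by
  classical
  intro m
  rw [coeff_mul]
  exact IsHomogeneous.sum _ _ _ fun p _ => (hG _).mul (hH _)

lemma HomZ.prod {c : ℕ} (s : Finset (Fin q)) (g : Fin q → MvPolynomial A (MvPolynomial (Zv n) k))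
    (hg : ∀ i, HomZ c (g i)) : HomZ (s.card * c) (∏ i ∈ s, g i) := by
  classical
  induction s using Finset.induction_on with
  | empty =>
    intro m
    rw [Finset.prod_empty, coeff_one, Finset.card_empty, Nat.zero_mul]
    split_ifs
    · exact isHomogeneous_one _ _
    · exact isHomogeneous_zero _ _ _
  | insert a s ha ih =>
    rw [Finset.prod_insert ha, Finset.card_insert_of_notMem ha, Nat.add_mul, Nat.one_mul,
      Nat.add_comm]
    exact (hg a).mul ih

/-- `sp` as a ring homomorphism -/
noncomputable def spH (a : Fin q → Fin (n + 1) → k) (l : Fin n → k) :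
    MvPolynomial (Av q n) (MvPolynomial (Zv n) k) →+* MvPolynomial (Zv n) k :=
  eval fun v => C (avv a l v)

lemma spH_apply (a : Fin q → Fin (n + 1) → k) (l : Fin n → k)
    (G : MvPolynomial (Av q n) (MvPolynomial (Zv n) k)) : spH a l G = sp a l G := rfl

lemma sp_eq (a : Fin q → Fin (n + 1) → k) (l : Fin n → k)
    (G : MvPolynomial (Av q n) (MvPolynomial (Zv n) k)) :
    sp a l G = ∑ m ∈ G.support, coeff m G * C (∏ v ∈ m.support, avv a l v ^ m v) := by
  unfold sp
  rw [eval_eq]
  refine Finset.sum_congr rfl fun m _ => ?_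
  rw [map_prod]
  simp only [map_pow]

lemma sp_hom (a : Fin q → Fin (n + 1) → k) (l : Fin n → k) {N : ℕ}
    {G : MvPolynomial (Av q n) (MvPolynomial (Zv n) k)} (hG : HomZ N G) :
    (sp a l G).IsHomogeneous N := by
  rw [sp_eq]
  refine IsHomogeneous.sum _ _ _ fun m _ => ?_
  have := (hG m).mul (isHomogeneous_C (Zv n) (∏ v ∈ m.support, avv a l v ^ m v))
  simpa using this

lemma sp_mem (a : Fin q → Fin (n + 1) → k) (l : Fin n → k)
    {P : Ideal (MvPolynomial (Zv n) k)}
    {G : MvPolynomial (Av q n) (MvPolynomial (Zv n) k)} (hG : InP P G) : sp a l G ∈ P := by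
  rw [sp_eq]
  exact P.sum_mem fun m _ => P.mul_mem_right _ (hG m)

variable {K : Type} [Field K] [Algebra k K]

lemma sp_T1 (a : Fin q → Fin (n + 1) → k) (l : Fin n → k) (i : Fin q)
    (y : Fin n → K) (D : Derivation k K K) :
    aeval (lift y D) (sp a l (T1 k n q i)) =
      ell (a i) (xx y) * ∑ j, algebraMap k K (l j) * D (y j) := by
  have h1 : sp a l (T1 k n q i) = ∑ s : Fin (n + 1), ∑ j : Fin n, C (a i s) * C (l j) * X (s, j) := by
    unfold sp T1
    rw [map_sum]
    refine Finset.sum_congr rfl fun s _ => ?_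
    rw [map_sum]
    refine Finset.sum_congr rfl fun j _ => ?_
    rw [map_mul, map_mul, eval_X, eval_X, eval_C]
    rfl
  rw [h1, map_sum]
  unfold ell
  rw [Finset.sum_mul_sum]
  refine Finset.sum_congr rfl fun s _ => ?_
  rw [map_sum]
  refine Finset.sum_congr rfl fun j _ => ?_
  rw [map_mul, map_mul, aeval_X, aeval_C, aeval_C]
  simp only [lift, seg]
  ring

lemma D_ell (a : Fin (n + 1) → k) (y : Fin n → K) (D : Derivation k K K) :
    D (ell a (xx y)) = ∑ j : Fin n, algebraMap k K (a j.succ) * D (y j) := by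
  unfold ell
  rw [map_sum, Fin.sum_univ_succ]
  have h0 : D (algebraMap k K (a 0) * xx y 0) = 0 := by
    have : xx y 0 = 1 := by simp [xx]
    rw [this, mul_one]
    exact D.map_algebraMap _
  rw [h0, zero_add]
  refine Finset.sum_congr rfl fun j _ => ?_
  rw [D.leibniz, D.map_algebraMap, smul_zero, add_zero, smul_eq_mul]
  simp [xx]

lemma sp_T2 (a : Fin q → Fin (n + 1) → k) (l : Fin n → k) (i : Fin q)
    (y : Fin n → K) (D : Derivation k K K) :
    aeval (lift y D) (sp a l (T2 k n q i)) = D (ell (a i) (xx y)) := by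
  have h1 : sp a l (T2 k n q i) = ∑ j : Fin n, C (a i j.succ) * X (0, j) := by
    unfold sp T2
    rw [map_sum]
    refine Finset.sum_congr rfl fun j _ => ?_
    rw [map_mul, eval_X, eval_C]
    rfl
  rw [h1, map_sum, D_ell]
  refine Finset.sum_congr rfl fun j _ => ?_
  rw [map_mul, aeval_X, aeval_C]
  simp [lift, seg, xx]

end HomZ

end Pool.Agent.H30.AV
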