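import Pool.Agent.H30.AV.Targets2

/-!
# MP_70ba79_ag: targets of the board `avr_modules`, groups D (curves) and E (induction, final)
-/

set_option autoImplicit false

namespace Pool.Agent.H30.AV

open MvPolynomial SC Pool.Agent.H27.LV

/-! ### Group D -/

open Classical in
/-- the normalising exponent of the matrix `z_i D y_j` at the place `v`: `ordD` outside `S`,
`ordD - 1 - 2 E` in `S` (`E` the pole order) -/
noncomputable def kap {k K : Type} [Field k] [Field K] [Algebra k K] {n : ℕ} (D : Derivation k K K)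
    (S : Finset (DV k K)) (y : Fin n → K) (v : DV k K) : ℤ :=
  ordD v D - if v ∈ S then 2 * (poleOrder v y : ℤ) + 1 else 0

/-- LOC: local estimates -/
def T_LOC : Prop := ∀ (k K : Type) [Field k] [IsAlgClosed k] [CharZero k] [Field K] [Algebra k K]
  [Algebra.EssFiniteType k K], Algebra.trdeg k K = 1 → ∀ (n m : ℕ) (a : Fin (n + 1) → k)
  (l : Fin n → k) (S : Finset (DV k K)) (y : Fin n → K) (x : K) (D : Derivation k K K), D ≠ 0 →
  (∀ v, v ∉ S → ∀ j, 0 ≤ v.ord (y j)) → x ≠ 0 → 2 ≤ m → x ^ m = ell a (xx y) → ∀ v : DV k K,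
  0 ≤ v.ord (ell a (xx y)) + poleOrder v y ∧ (v ∉ S → poleOrder v y = 0) ∧
  (∀ s j, ge v (kap D S y v) (lift y D (s, j))) ∧
  ge v (kap D S y v + (v.ord (ell a (xx y)) + poleOrder v y))
    (ell a (xx y) * ∑ j, algebraMap k K (l j) * D (y j)) ∧
  (D (ell a (xx y)) = 0 ∨ 2 * kap D S y v + (v.ord (ell a (xx y)) + poleOrder v y) ≤
    2 * v.ord (D (ell a (xx y))))

/-- CUR: the inequality for one curve -/
def T_CUR : Prop := ∀ (k K : Type) [Field k] [IsAlgClosed k] [CharZero k] [Field K] [Algebra k K]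
  [Algebra.EssFiniteType k K], Algebra.trdeg k K = 1 → ∀ (n q r N w c e : ℕ)
  (a : Fin q → Fin (n + 1) → k) (l : Fin n → k) (μ : Fin q → ℕ) (S : Finset (DV k K))
  (y : Fin n → K) (x : Fin q → K) (D : Derivation k K K) (G : MvPolynomial (Zv n) k)
  (g : Fin q → MvPolynomial (Zv n) k) (h : Fin q → ℕ → MvPolynomial (Zv n) k), D ≠ 0 →
  (∀ v, v ∉ S → ∀ j, 0 ≤ v.ord (y j)) → (∀ i, x i ≠ 0) → (∀ i, 2 ≤ μ i) →
  (∀ i, x i ^ μ i = ell (a i) (xx y)) →
  (∀ (v : DV k K) (I : Finset (Fin q)),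
    (∀ i ∈ I, 0 < v.ord (ell (a i) (xx y)) + poleOrder v y) → I.card ≤ r) →
  G.IsHomogeneous N → (∀ i, (g i).IsHomogeneous c) → (∀ i j, (h i j).IsHomogeneous e) →
  e + w = N + c → (∀ i, aeval (lift y D) (g i * G) = ∑ j ∈ Finset.range (w + 1),
    (ell (a i) (xx y) * ∑ s, algebraMap k K (l s) * D (y s)) ^ j *
      (D (ell (a i) (xx y))) ^ (w - j) * aeval (lift y D) (h i j)) →
  aeval (lift y D) (G * ∏ i, g i) ≠ 0 →
  ((q * w : ℤ) - 4 * r * (N + q * c)) * deg k y ≤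
    2 * r * (N + q * c) * (canDeg D + S.card)

/-- BZE: the case of dimension zero -/
def T_BZE : Prop := ∀ (k : Type) [Field k] [IsAlgClosed k] [CharZero k] (n : ℕ)
  (P : Ideal (MvPolynomial (Zv n) k)), P.IsPrime → IsHom P →
  Algebra.trdeg k (MvPolynomial (Zv n) k ⧸ P) ≤ (1 : Cardinal) →
  ∀ (K : Type) [Field K] [Algebra k K] [Algebra.EssFiniteType k K], Algebra.trdeg k K = 1 →
  ∀ (D : Derivation k K K) (y : Fin n → K), D ≠ 0 → (∀ g ∈ P, aeval (lift y D) g = 0) →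
  ∀ j, y j ∈ Set.range (algebraMap k K)

/-! ### Group E -/

/-- TAN: the tangent vectors of an irreducible variety, outside a hypersurface -/
def T_TAN : Prop := ∀ (k : Type) [Field k] [CharZero k] (n r : ℕ)
  (Q : Ideal (MvPolynomial (Fin n) k)), Q.IsPrime →
  Algebra.trdeg k (MvPolynomial (Fin n) k ⧸ Q) ≤ (r : Cardinal) →
  ∃ (f : MvPolynomial (Fin n) k) (P : Ideal (MvPolynomial (Zv n) k)), f ∉ Q ∧ P.IsPrime ∧
    IsHom P ∧ Seg P ∧ Algebra.trdeg k (MvPolynomial (Zv n) k ⧸ P) ≤ (2 * r : ℕ) ∧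
    ∀ (K : Type) [Field K] [Algebra k K] (D : Derivation k K K) (y : Fin n → K),
      (∀ g ∈ Q, aeval y g = 0) → aeval y f ≠ 0 → ∀ g ∈ P, aeval (lift y D) g = 0

/-- BOR: union of two conditions, weaker condition, impossible condition -/
def T_BOR : Prop := ∀ (k : Type) [Field k] (n q : ℕ) (Q : Set (MvPolynomial (Fin n) k))
  (V V' V'' : ∀ (K : Type) [Field K] [Algebra k K], (Fin n → K) → Derivation k K K → Prop),
  Bd k n q Q V → Bd k n q Q V' →
  (∀ (K : Type) [Field K] [Algebra k K] (y : Fin n → K) (D : Derivation k K K),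
    (∀ g ∈ Q, aeval y g = 0) → V'' K y D → V K y D ∨ V' K y D) → Bd k n q Q V''

/-- PRM: the main step, for a prime ideal -/
def T_PRM : Prop := ∀ (k : Type) [Field k] [IsAlgClosed k] [CharZero k] (n r q : ℕ)
  (Q : Set (MvPolynomial (Fin n) k)), 1 ≤ r → DimLE Q r → 32 * r ^ 4 ≤ q →
  ∀ P : Ideal (MvPolynomial (Zv n) k), P.IsPrime → IsHom P → Seg P →
  Algebra.trdeg k (MvPolynomial (Zv n) k ⧸ P) ≤ (2 * r : ℕ) →
  (∀ A : Ideal (MvPolynomial (Zv n) k), P < A → IsHom A →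
    Bd k n q Q fun K _ _ y D => ∀ g ∈ A, aeval (lift y D) g = 0) →
  Bd k n q Q fun K _ _ y D => ∀ g ∈ P, aeval (lift y D) g = 0

/-- IND: induction over the homogeneous ideals which contain `P` -/
def T_IND : Prop := ∀ (k : Type) [Field k] [IsAlgClosed k] [CharZero k] (n r q : ℕ)
  (Q : Set (MvPolynomial (Fin n) k)), 1 ≤ r → DimLE Q r → 32 * r ^ 4 ≤ q →
  ∀ P : Ideal (MvPolynomial (Zv n) k), P.IsPrime → IsHom P → Seg P →
  Algebra.trdeg k (MvPolynomial (Zv n) k ⧸ P) ≤ (2 * r : ℕ) →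
  Bd k n q Q fun K _ _ y D => ∀ g ∈ P, aeval (lift y D) g = 0

/-- INZ: induction over the closed subsets of the variety -/
def T_INZ : Prop := ∀ (k : Type) [Field k] [IsAlgClosed k] [CharZero k] (n r q : ℕ)
  (Q : Set (MvPolynomial (Fin n) k)), 1 ≤ r → DimLE Q r → 32 * r ^ 4 ≤ q →
  Bd k n q Q fun _ _ _ _ _ => True

/-- LNF: the theorem for linear polynomials -/
def T_LNF : Prop := ∀ (k : Type) [Field k] [IsAlgClosed k] [CharZero k] (n r q : ℕ)
  (Q : Set (MvPolynomial (Fin n) k)), 1 ≤ r → DimLE Q r → 32 * r ^ 4 ≤ q →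
  ∃ (Δ : MvPolynomial (Fin q × Fin (n + 1)) k) (B : ℕ), Δ ≠ 0 ∧
    ∀ a : Fin q → Fin (n + 1) → k, eval (fun p => a p.1 p.2) Δ ≠ 0 →
    ∀ μ : Fin q → ℕ, (∀ i, 2 ≤ μ i) →
      DegreeBound k (coverEqs Q a μ) (∏ i, X (Sum.inr i)) (fun χ => B * χ)

/-- exponents of the monomials of degree at most `e` in `n` variables -/
abbrev Pol (n e : ℕ) : Type := {f : Fin n → ℕ // ∑ i, f i ≤ e}

instance (n e : ℕ) : Finite (Pol n e) := by
  have h : ∀ f : Pol n e, ∀ i, f.1 i < e + 1 := fun f i => by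
    have := Finset.single_le_sum (f := f.1) (fun _ _ => Nat.zero_le _) (Finset.mem_univ i)
    have := f.2
    omega
  refine Finite.of_injective (β := Fin n → Fin (e + 1)) (fun f i => ⟨f.1 i, h f i⟩) ?_
  intro f g hfg
  apply Subtype.ext
  funext i
  have := congrFun hfg i
  simpa using this

noncomputable instance (n e : ℕ) : Fintype (Pol n e) := Fintype.ofFinite _

/-- Equations of the cover `X` of the affine variety `Y` with equations `Q`: those of `Y` and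
`x_i ^ μ_i = ∑ a_iM y ^ M`, polynomials of degree `e`. -/
noncomputable def polyEqs {k : Type} [Field k] {n q e : ℕ} (Q : Set (MvPolynomial (Fin n) k))
    (a : Fin q → Pol n e → k) (μ : Fin q → ℕ) : Set (MvPolynomial (Fin n ⊕ Fin q) k) :=
  {p | (∃ g ∈ Q, p = rename Sum.inl g) ∨ ∃ i, p = X (Sum.inr i) ^ μ i -
    ∑ M : Pol n e, C (a i M) * ∏ j, X (Sum.inl j) ^ M.1 j}

/-- VER: the theorem for polynomials of degree `e` -/
def T_VER : Prop := ∀ (k : Type) [Field k] [IsAlgClosed k] [CharZero k] (n r e q : ℕ)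
  (Q : Set (MvPolynomial (Fin n) k)), 1 ≤ r → 1 ≤ e → DimLE Q r → 32 * r ^ 4 ≤ q →
  ∃ (Δ : MvPolynomial (Fin q × Pol n e) k) (B : ℕ), Δ ≠ 0 ∧
    ∀ a : Fin q → Pol n e → k, eval (fun p => a p.1 p.2) Δ ≠ 0 →
    ∀ μ : Fin q → ℕ, (∀ i, 2 ≤ μ i) →
      DegreeBound k (polyEqs Q a μ) (∏ i, X (Sum.inr i)) (fun χ => B * χ)

end Pool.Agent.H30.AV
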