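import Pool.Agent.H30.AV.Hom

/-!
# Row PRM: the main step
-/

set_option autoImplicit false

namespace Pool.Agent.H30.AV

open MvPolynomial SC Pool.Agent.H27.LV

theorem pf_PRM (hPEX : T_PEX) (hGEN : T_GEN) (hGPV : T_GPV) (hCUR : T_CUR) (hBZE : T_BZE)
    (hKER : T_KER) : T_PRM := by
  intro k _ _ _ n r q Q hr hdim hq P hP hPh hseg htr IH
  classical
  have hvac : (∀ (K : Type) [Field K] [Algebra k K] [Algebra.EssFiniteType k K],
      Algebra.trdeg k K = 1 → ∀ (D : Derivation k K K) (y : Fin n → K), D ≠ 0 →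
      (∀ g ∈ P, aeval (lift y D) g = 0) → ∀ j, y j ∈ Set.range (algebraMap k K)) →
      Bd k n q Q (fun K _ _ y D => ∀ g ∈ P, aeval (lift y D) g = 0) := by
    intro h
    refine ⟨1, 1, one_ne_zero, le_rfl, ?_⟩
    intro a _ μ _ K _ _ _ htrK S y x D hD _ _ hnc _ _ hV
    obtain ⟨j, hj⟩ := hnc
    exact absurd (h K htrK D y hD hV j) hj
  by_cases h0 : ∃ j : Fin n, (X (0, j) : MvPolynomial (Zv n) k) ∉ P
  swap
  · push Not at h0
    apply hvac
    intro K _ _ _ htrK D y hD hV j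
    refine hKER k K htrK D hD (y j) ?_
    have h1 := hV _ (h0 j)
    rw [aeval_X] at h1
    simpa [lift, seg, xx] using h1
  obtain ⟨t, ht⟩ := Cardinal.lt_aleph0.1 (htr.trans_lt (Cardinal.natCast_lt_aleph0))
  have ht2 : t ≤ 2 * r := by
    rw [ht] at htr
    exact_mod_cast htr
  by_cases ht1 : t ≤ 1
  · refine hvac (hBZE k n P hP hPh ?_)
    rw [ht]
    exact_mod_cast ht1
  push Not at ht1
  obtain ⟨β, rfl⟩ : ∃ β, t = β + 2 := ⟨t - 2, by omega⟩
  have hr4 : r ≤ r ^ 4 := Nat.le_self_pow (by norm_num) r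
  obtain ⟨q0, rfl⟩ : ∃ q0, q = q0 + 2 * r := ⟨q - 2 * r, by omega⟩
  obtain ⟨N, w, c, G, g, hN, hnum, hG, hg, hnot, hid⟩ :=
    hPEX k n r q0 β P hr ht2 hq hP hPh hseg h0 ht
  choose e h hew hh hinp using hid
  obtain ⟨m, hm⟩ := not_forall.1 hnot
  obtain ⟨θ, hθ⟩ : ∃ θ, θ = coeff m (G * ∏ i, g i) := ⟨_, rfl⟩
  rw [← hθ] at hm
  have hprod : HomZ (N + q0 * c) (G * ∏ i, g i) := by
    have := HomZ.prod Finset.univ g hg
    rw [Finset.card_univ, Fintype.card_fin] at this
    exact hG.mul this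
  have hθh : θ.IsHomogeneous (N + q0 * c) := by
    rw [hθ]
    exact hprod m
  -- the larger ideal
  obtain ⟨Δ1, B1, hΔ1, hB1, hbd1⟩ := IH (P ⊔ Ideal.span {θ})
    (lt_of_le_of_ne le_sup_left fun h1 => hm (by
      rw [h1]
      exact Ideal.mem_sup_right (Ideal.mem_span_singleton_self _)))
    (hPh.sup (isHom_span fun f hf => by
      rw [Set.mem_singleton_iff] at hf
      rw [hf]
      exact ⟨_, hθh⟩))
  obtain ⟨Δ2, hΔ2, hgen⟩ := hGEN k n (q0 + 2 * r) q0 (2 * r) P (G * ∏ i, g i) hP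
    (by rw [ht]; exact_mod_cast ht2) le_rfl
  obtain ⟨Δ3, hΔ3, hgpv⟩ := hGPV k n r (q0 + 2 * r) Q hdim
  obtain ⟨B2, hB2⟩ : ∃ B2, B2 = 2 * r * (N + q0 * c) := ⟨_, rfl⟩
  refine ⟨Δ1 * Δ2 * Δ3, B1 + B2, mul_ne_zero (mul_ne_zero hΔ1 hΔ2) hΔ3, by omega, ?_⟩
  intro a ha μ hμ K _ _ _ htrK S y x D hD hQy hreg hnc hx0 hxe hV
  rw [map_mul, map_mul, mul_ne_zero_iff, mul_ne_zero_iff] at ha
  obtain ⟨⟨ha1, ha2⟩, ha3⟩ := ha
  have hdeg0 : (0 : ℤ) ≤ deg k y := by positivity
  by_cases hθy : aeval (lift y D) θ = 0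
  · have h1 : (deg k y : ℤ) ≤ B1 * (canDeg D + S.card) := by
      refine hbd1 a ha1 μ hμ K htrK S y x D hD hQy hreg hnc hx0 hxe ?_
      intro f hf
      obtain ⟨f1, hf1, f2, hf2, rfl⟩ := Submodule.mem_sup.1 hf
      obtain ⟨f3, rfl⟩ := Ideal.mem_span_singleton'.1 hf2
      rw [map_add, map_mul, hV f1 hf1, hθy, mul_zero, add_zero]
    have hχ : 0 ≤ canDeg D + S.card := by
      by_contra hcon
      push Not at hcon
      have : (1 : ℤ) ≤ B1 := by exact_mod_cast hB1
      nlinarith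
    push_cast
    have : (0 : ℤ) ≤ B2 * (canDeg D + S.card) := by positivity
    linarith
  · obtain ⟨I, l, hI, hne⟩ := hgen a ha2 K (lift y D) hV ⟨m, by rw [← hθ]; exact hθy⟩
    have hell : ∀ i, ell (a i) (xx y) ≠ 0 := by
      intro i
      rw [← hxe i]
      exact pow_ne_zero _ (hx0 i)
    have hq0 : 0 < q0 := Nat.pos_of_ne_zero (by
      rintro rfl
      simp at hnum)
    obtain ⟨e0, he0⟩ : ∃ e0, e0 = e ⟨0, hq0⟩ := ⟨_, rfl⟩
    have he : ∀ i, e i = e0 := by
      intro i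
      have h1 := hew i
      have h2 := hew ⟨0, hq0⟩
      omega
    obtain ⟨a', ha'⟩ : ∃ a' : Fin q0 → Fin (n + 1) → k, a' = fun i => a (I i) := ⟨_, rfl⟩
    rw [← ha'] at hne
    have hai : ∀ i, a' i = a (I i) := fun i => by rw [ha']
    have hid' : ∀ i, aeval (lift y D) (sp a' l (g i) * sp a' l G) =
        ∑ j ∈ Finset.range (w + 1),
          (ell (a' i) (xx y) * ∑ s, algebraMap k K (l s) * D (y s)) ^ j *
            (D (ell (a' i) (xx y))) ^ (w - j) * aeval (lift y D) (sp a' l (h i j)) := by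
      intro i
      have h1 := hV _ (sp_mem a' l (hinp i))
      rw [← spH_apply, map_sub, map_sub, map_sum, map_sum, sub_eq_zero] at h1
      rw [← spH_apply, ← spH_apply, ← map_mul, h1]
      refine Finset.sum_congr rfl fun j _ => ?_
      simp only [map_mul, map_pow]
      rw [spH_apply, spH_apply, spH_apply, sp_T1, sp_T2]
    have hne' : aeval (lift y D) (sp a' l G * ∏ i, sp a' l (g i)) ≠ 0 := by
      rw [← spH_apply, map_mul, map_prod] at hne
      exact hne
    have hcur := hCUR k K htrK n q0 r N w c e0 a' l (fun i => μ (I i)) S y (fun i => x (I i)) D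
      (sp a' l G) (fun i => sp a' l (g i)) (fun i j => sp a' l (h i j)) hD hreg
      (fun i => hx0 _) (fun i => hμ _) (fun i => by rw [hai i]; exact hxe _)
      (fun v I' hI' => by
        have h1 := hgpv a ha3 K htrK y hQy hell v (I'.image I) (fun i hi => by
          obtain ⟨i', hi', rfl⟩ := Finset.mem_image.1 hi
          rw [← hai i']
          exact hI' i' hi')
        rwa [Finset.card_image_of_injective _ hI] at h1)
      (sp_hom a' l hG) (fun i => sp_hom a' l (hg i)) (fun i j => by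
        rw [← he i]
        exact sp_hom a' l (hh i j)) (by rw [he0]; exact hew _) hid' hne'
    have hnum' : (4 * r * (N + q0 * c) : ℤ) + 1 ≤ q0 * w := by exact_mod_cast hnum
    have h3 : (deg k y : ℤ) ≤ B2 * (canDeg D + S.card) := by
      rw [hB2]
      push_cast
      nlinarith
    have hB2' : (1 : ℤ) ≤ B2 := by
      have : 1 ≤ B2 := by
        rw [hB2]
        exact Nat.mul_pos (by omega) (by omega)
      exact_mod_cast this
    have hχ : 0 ≤ canDeg D + S.card := by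
      by_contra hcon
      push Not at hcon
      nlinarith
    push_cast
    have : (0 : ℤ) ≤ B1 * (canDeg D + S.card) := by positivity
    linarith

end Pool.Agent.H30.AV
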