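import Pool.Agent.H27.LV.All
import Pool.Agent.H19.VGH.ELI
import Pool.Agent.H34.AV.TRQ
import Pool.Agent.H1.AV.HMP
import Pool.Agent.H69.AV.AVD
import Pool.Agent.H42.AV.NNS
import Pool.Agent.H69.AV.FNT
import Pool.Agent.H56.AV.MOD
import Pool.Agent.H77.AV.ALI
import Pool.Agent.H52.AV.LAT
import Pool.Agent.H1.AV.COD
import Pool.Agent.H99.AV.NUX
import Pool.Agent.H63.AV.PEO
import Pool.Agent.H3.AV.BCH
import Pool.Agent.H52.AV.LR1
import Pool.Agent.H77.AV.SGR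
import Pool.Agent.H69.AV.TRD
import Pool.Agent.H3.AV.PEX
import Pool.Agent.H99.AV.BLK
import Pool.Agent.H19.AV.GEN
import Pool.Agent.H51.AV.CONN
import Pool.Agent.H6.AV.GPH
import Pool.Agent.H64.AV.GPV
import Pool.Agent.H64.AV.LOC
import Pool.Agent.H64.AV.CUR
import Pool.Agent.H20.AV.BZE
import Pool.Agent.H92.AV.TAN
import Pool.Agent.H52.AV.BOR
import Pool.Agent.H30.AV.PRM
import Pool.Agent.H52.AV.IND
import Pool.Agent.H52.AV.INZ
import Pool.Agent.H52.AV.LNF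
import Pool.Agent.H63.AV.VER

/-!
# MP_70ba79_ag: assembly of the board `avr_modules`
-/

set_option autoImplicit false

namespace Pool.Agent.H30.AV

open MvPolynomial SC Pool.Agent.H27.LV

theorem tTRQ : T_TRQ := Pool.Agent.H34.AV.pf_TRQ

theorem tHMP : T_HMP := Pool.Agent.H1.AV.pf_HMP

theorem tNNS : T_NNS := Pool.Agent.H42.AV.pf_NNS tTRQ tHMP Pool.Agent.H69.AV.pf_AVD

theorem tFNT : T_FNT := Pool.Agent.H69.AV.pf_FNT tHMP

theorem tMOD : T_MOD := Pool.Agent.H56.AV.pf_MOD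

theorem tALI : T_ALI := Pool.Agent.H77.AV.pf_ALI tMOD

theorem tLAT : T_LAT := Pool.Agent.H52.AV.pf_LAT tMOD

theorem tCOD : T_COD := Pool.Agent.H1.AV.pf_COD tNNS tFNT tALI tLAT

theorem tNUX : T_NUX := Pool.Agent.H99.AV.pf_NUX

theorem tPEO : T_PEO := Pool.Agent.H63.AV.pf_PEO tCOD tNUX

theorem tBCH : T_BCH := Pool.Agent.H3.AV.pf_BCH

theorem tSGR : T_SGR := Pool.Agent.H77.AV.pf_SGR tTRQ

theorem tTRD : T_TRD :=
  Pool.Agent.H69.AV.pf_TRD Pool.Agent.H52.AV.pf_LR1 Pool.Agent.H52.AV.pf_LR2 tSGR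

theorem tPEX : T_PEX := Pool.Agent.H3.AV.pf_PEX tPEO tBCH tTRD

theorem tGEN : T_GEN := Pool.Agent.H19.AV.pf_GEN Pool.Agent.H99.AV.pf_BLK
  Pool.Agent.H19.VGH.pf_ELI

theorem tCON : T_CON := Pool.Agent.H51.AV.pf_CON Pool.Agent.H19.VGH.pf_ELI

theorem tGPH : T_GPH := Pool.Agent.H6.AV.pf_GPH Pool.Agent.H19.VGH.pf_ELI

theorem tGPV : T_GPV := Pool.Agent.H64.AV.pf_GPV tCON tGPH rat

theorem tLOC' : T_LOC := Pool.Agent.H64.AV.pf_LOC dor

theorem tCUR : T_CUR := Pool.Agent.H64.AV.pf_CUR tLOC' pfm tDFI pfi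

theorem tBZE : T_BZE := Pool.Agent.H20.AV.pf_BZE ker

theorem tPRM : T_PRM := pf_PRM tPEX tGEN tGPV tCUR tBZE ker

theorem tBOR : T_BOR := Pool.Agent.H52.AV.pf_BOR

theorem tIND : T_IND := Pool.Agent.H52.AV.pf_IND tPRM tBOR

theorem tINZ : T_INZ := Pool.Agent.H52.AV.pf_INZ Pool.Agent.H92.AV.pf_TAN tIND tBOR

theorem tLNF : T_LNF := Pool.Agent.H52.AV.pf_LNF tINZ

theorem tVER : T_VER := Pool.Agent.H63.AV.pf_VER tLNF

end Pool.Agent.H30.AV
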