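import Pool.Agent.H27.LV.Final

/-!
# MP_70ba79_ag: covers of affine varieties of dimension `r` branched along general hyperplanes

Common definitions of the modules of the board `avr_modules`. `S = k[Z_ij]`, `i = 0, …, n`,
`j = 0, …, n - 1`, is the ring of the space of matrices; a curve with the point `y = (y_j)` and a
derivation `D` of its function field give the matrix `z_i D y_j`, `z = (1, y)` (`lift`).
-/

set_option autoImplicit false

namespace Pool.Agent.H30.AV

open MvPolynomial SC Pool.Agent.H27.LV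

/-- the variables `Z_ij` -/
abbrev Zv (n : ℕ) : Type := Fin (n + 1) × Fin n

/-- the variables `a_(i, s)` (coefficients of `q` linear forms) and `l_j` -/
abbrev Av (q n : ℕ) : Type := (Fin q × Fin (n + 1)) ⊕ Fin n

/-- matrix of rank one -/
def seg {F : Type} [Field F] {n : ℕ} (ξ : Fin (n + 1) → F) (η : Fin n → F) : Zv n → F :=
  fun ij => ξ ij.1 * η ij.2

/-- the matrix `z_i D y_j`, `z = (1, y)` -/
def lift {k K : Type} [Field k] [Field K] [Algebra k K] {n : ℕ} (y : Fin n → K)
    (D : Derivation k K K) : Zv n → K := seg (xx y) fun j => D (y j)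

/-- homogeneous ideals of polynomial rings -/
def IsHom {L τ : Type} [Field L] (I : Ideal (MvPolynomial τ L)) : Prop :=
  ∀ g ∈ I, ∀ d, homogeneousComponent d g ∈ I

/-- the ideal contains the `2 × 2` minors of the matrix `Z` -/
def Seg {k : Type} [Field k] {n : ℕ} (P : Ideal (MvPolynomial (Zv n) k)) : Prop :=
  ∀ (i i' : Fin (n + 1)) (j j' : Fin n), X (i, j) * X (i', j') - X (i, j') * X (i', j) ∈ P

/-- number of the monomials of degree `M` in `β + 2` variables whose degree in the first two
variables is less than `w` -/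
noncomputable def cnt (β M w : ℕ) : ℕ :=
  ∑ j ∈ Finset.range w, if j ≤ M then (j + 1) * Fintype.card (Mon β (M - j)) else 0

section TwoRings

variable {k : Type} [Field k] {n q : ℕ}

/-- all coefficients of `G` are forms of degree `N` -/
def HomZ {A : Type} (N : ℕ) (G : MvPolynomial A (MvPolynomial (Zv n) k)) : Prop :=
  ∀ m, (coeff m G).IsHomogeneous N

/-- all coefficients of `G` are in `P` -/
def InP {A : Type} (P : Ideal (MvPolynomial (Zv n) k))
    (G : MvPolynomial A (MvPolynomial (Zv n) k)) : Prop := ∀ m, coeff m G ∈ P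

/-- `T1 = (∑ a_is z_s) (∑ l_j w_j)`, `z_s w_j = Z_sj` -/
noncomputable def T1 (k : Type) [Field k] (n q : ℕ) (i : Fin q) :
    MvPolynomial (Av q n) (MvPolynomial (Zv n) k) :=
  ∑ s : Fin (n + 1), ∑ j : Fin n, X (Sum.inl (i, s)) * X (Sum.inr j) * C (X (s, j))

/-- `T2 = ∑ a_(i, j + 1) z_0 w_j` -/
noncomputable def T2 (k : Type) [Field k] (n q : ℕ) (i : Fin q) :
    MvPolynomial (Av q n) (MvPolynomial (Zv n) k) :=
  ∑ j : Fin n, X (Sum.inl (i, j.succ)) * C (X (0, j))

/-- values of the variables `a`, `l` -/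
def avv (a : Fin q → Fin (n + 1) → k) (l : Fin n → k) : Av q n → k :=
  Sum.elim (fun p => a p.1 p.2) l

/-- substitute constants for the variables `a`, `l` -/
noncomputable def sp (a : Fin q → Fin (n + 1) → k) (l : Fin n → k)
    (G : MvPolynomial (Av q n) (MvPolynomial (Zv n) k)) : MvPolynomial (Zv n) k :=
  eval (fun v => C (avv a l v)) G

/-- substitute elements of an extension field for the variables `a`, `l` -/
noncomputable def ev {L A τ : Type} [Field L] [Algebra k L] (α : A → L)
    (G : MvPolynomial A (MvPolynomial τ k)) : MvPolynomial τ L :=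
  eval₂ (MvPolynomial.map (algebraMap k L)) (fun v => C (α v)) G

end TwoRings

/-- the variety with equations `Q` has dimension at most `r`: at no point (with coordinates in any
field) are `r + 1` of the coordinates algebraically independent -/
def DimLE {k : Type} [Field k] {n : ℕ} (Q : Set (MvPolynomial (Fin n) k)) (r : ℕ) : Prop :=
  ∀ (F : Type) [Field F] [Algebra k F] (y : Fin n → F), (∀ g ∈ Q, aeval y g = 0) →
    ∀ s : Fin (r + 1) → Fin n, ¬ AlgebraicIndependent k fun i => y (s i)

/-- For general `a` (in the complement of a hypersurface `Δ = 0`) the degree of the curves of the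
cover with the equations `x_i ^ μ_i = a_i (y)` of the variety with equations `Q`, which have the
property `V`, is bounded linearly. -/
def Bd (k : Type) [Field k] (n q : ℕ) (Q : Set (MvPolynomial (Fin n) k))
    (V : ∀ (K : Type) [Field K] [Algebra k K], (Fin n → K) → Derivation k K K → Prop) : Prop :=
  ∃ (Δ : MvPolynomial (Fin q × Fin (n + 1)) k) (B : ℕ), Δ ≠ 0 ∧ 1 ≤ B ∧
    ∀ a : Fin q → Fin (n + 1) → k, eval (fun p => a p.1 p.2) Δ ≠ 0 →
    ∀ μ : Fin q → ℕ, (∀ i, 2 ≤ μ i) →
    ∀ (K : Type) [Field K] [Algebra k K] [Algebra.EssFiniteType k K], Algebra.trdeg k K = 1 →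
    ∀ (S : Finset (DV k K)) (y : Fin n → K) (x : Fin q → K) (D : Derivation k K K), D ≠ 0 →
    (∀ g ∈ Q, aeval y g = 0) → (∀ v, v ∉ S → ∀ j, 0 ≤ v.ord (y j)) →
    (∃ j, y j ∉ Set.range (algebraMap k K)) → (∀ i, x i ≠ 0) →
    (∀ i, x i ^ μ i = ell (a i) (xx y)) → V K y D →
    (deg k y : ℤ) ≤ B * (canDeg D + S.card)

end Pool.Agent.H30.AV
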