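import Pool.Agent.H30.AV.Defs

/-!
# MP_70ba79_ag: targets of the board `avr_modules`, group A (graded rings, counting)

`L` is an infinite field, `R = L[X_x]`, `x ∈ τ`, `P` a homogeneous prime ideal of `R` with
`trdeg (R / P) = β + 2` (a projective variety of dimension `β + 1`).
-/

set_option autoImplicit false

namespace Pool.Agent.H30.AV

open MvPolynomial SC Pool.Agent.H27.LV

/-- TRQ: the transcendence degree drops -/
def T_TRQ : Prop := ∀ (L τ : Type) [Field L] [Finite τ] (P Q : Ideal (MvPolynomial τ L)),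
  P.IsPrime → Q.IsPrime → P < Q →
  Algebra.trdeg L (MvPolynomial τ L ⧸ Q) + 1 ≤ Algebra.trdeg L (MvPolynomial τ L ⧸ P)

/-- HMP: every homogeneous ideal has finitely many minimal primes, they are homogeneous -/
def T_HMP : Prop := ∀ (L τ : Type) [Field L] [Finite τ] (A : Ideal (MvPolynomial τ L)), IsHom A →
  ∃ s : Finset (Ideal (MvPolynomial τ L)), (∀ Q ∈ s, Q.IsPrime ∧ IsHom Q ∧ A ≤ Q) ∧
    (∀ Q : Ideal (MvPolynomial τ L), Q.IsPrime → A ≤ Q → ∃ Q' ∈ s, Q' ≤ Q) ∧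
    ∀ f, (∀ Q ∈ s, f ∈ Q) → ∃ m : ℕ, f ^ m ∈ A

/-- AVD: a linear form outside finitely many primes -/
def T_AVD : Prop := ∀ (L τ : Type) [Field L] [Infinite L] [Fintype τ]
  (s : Finset (Ideal (MvPolynomial τ L))), (∀ Q ∈ s, ∃ x, X x ∉ Q) →
  ∃ c : τ → L, ∀ Q ∈ s, ∑ x, C (c x) * X x ∉ Q

/-- NNS: a homogeneous system of parameters which starts with `T`, `T'` -/
def T_NNS : Prop := ∀ (L τ : Type) [Field L] [Infinite L] [Fintype τ] (β : ℕ)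
  (P : Ideal (MvPolynomial τ L)) (T T' : MvPolynomial τ L), P.IsPrime → IsHom P →
  T.IsHomogeneous 1 → T'.IsHomogeneous 1 →
  (∀ Q : Ideal (MvPolynomial τ L), Q.IsPrime → IsHom Q → P ≤ Q → T ∈ Q → T' ∈ Q →
    Algebra.trdeg L (MvPolynomial τ L ⧸ Q) ≤ (β : Cardinal)) →
  ∃ t : Fin (β + 2) → MvPolynomial τ L, (∀ i, (t i).IsHomogeneous 1) ∧ t 0 = T ∧ t 1 = T' ∧
    ∀ Q : Ideal (MvPolynomial τ L), Q.IsPrime → IsHom Q → P ≤ Q → (∀ i, t i ∈ Q) →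
      ∀ x, X x ∈ Q

/-- FNT: then all forms of some degree are in `P + (t)` -/
def T_FNT : Prop := ∀ (L τ : Type) [Field L] [Finite τ] (A : Ideal (MvPolynomial τ L)), IsHom A →
  (∀ Q : Ideal (MvPolynomial τ L), Q.IsPrime → IsHom Q → A ≤ Q → ∀ x, X x ∈ Q) →
  ∃ m : ℕ, ∀ g : MvPolynomial τ L, g.IsHomogeneous m → g ∈ A

/-- MOD: generators over `L[t]` -/
def T_MOD : Prop := ∀ (L τ : Type) [Field L] [Finite τ] (β m : ℕ)
  (P : Ideal (MvPolynomial τ L)) (t : Fin (β + 2) → MvPolynomial τ L), IsHom P →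
  (∀ i, (t i).IsHomogeneous 1) →
  (∀ g : MvPolynomial τ L, g.IsHomogeneous m → g ∈ P ⊔ Ideal.span (Set.range t)) →
  ∀ (N : ℕ) (g : MvPolynomial τ L), g.IsHomogeneous N →
    ∃ (s : Finset (τ →₀ ℕ)) (c : (τ →₀ ℕ) → MvPolynomial (Fin (β + 2)) L),
      (∀ M ∈ s, M.degree < m ∧ M.degree ≤ N ∧ (c M).IsHomogeneous (N - M.degree)) ∧
      g - ∑ M ∈ s, aeval t (c M) * monomial M 1 ∈ P

/-- ALI: `t` is algebraically independent modulo `P` -/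
def T_ALI : Prop := ∀ (L τ : Type) [Field L] [Finite τ] (β m : ℕ)
  (P : Ideal (MvPolynomial τ L)) (t : Fin (β + 2) → MvPolynomial τ L), P.IsPrime → IsHom P →
  Algebra.trdeg L (MvPolynomial τ L ⧸ P) = (β + 2 : ℕ) → (∀ i, (t i).IsHomogeneous 1) →
  (∀ g : MvPolynomial τ L, g.IsHomogeneous m → g ∈ P ⊔ Ideal.span (Set.range t)) →
  ∀ f : MvPolynomial (Fin (β + 2)) L, aeval t f ∈ P → f = 0

/-- LAT: a free graded submodule -/
def T_LAT : Prop := ∀ (L τ : Type) [Field L] [Finite τ] (β m : ℕ)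
  (P : Ideal (MvPolynomial τ L)) (t : Fin (β + 2) → MvPolynomial τ L), P.IsPrime → IsHom P →
  (∀ i, (t i).IsHomogeneous 1) →
  (∀ g : MvPolynomial τ L, g.IsHomogeneous m → g ∈ P ⊔ Ideal.span (Set.range t)) →
  (∀ f : MvPolynomial (Fin (β + 2)) L, aeval t f ∈ P → f = 0) →
  ∃ (d : ℕ) (e : Fin d → MvPolynomial τ L) (δ : Fin d → ℕ) (g : MvPolynomial (Fin (β + 2)) L)
    (c : ℕ), 1 ≤ d ∧ (∀ j, (e j).IsHomogeneous (δ j)) ∧ g.IsHomogeneous c ∧ g ≠ 0 ∧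
    (∀ h : Fin d → MvPolynomial (Fin (β + 2)) L, ∑ j, aeval t (h j) * e j ∈ P → h = 0) ∧
    ∀ (N : ℕ) (G : MvPolynomial τ L), G.IsHomogeneous N →
      ∃ h : Fin d → MvPolynomial (Fin (β + 2)) L,
        (∀ j, h j = 0 ∨ ∃ a, a + δ j = N + c ∧ (h j).IsHomogeneous a) ∧
        aeval t g * G - ∑ j, aeval t (h j) * e j ∈ P

/-- COD: the number of conditions for a zero of order `w` along `T = T' = 0`, compared with the
number of forms -/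
def T_COD : Prop := ∀ (L τ : Type) [Field L] [Infinite L] [Fintype τ] (β : ℕ)
  (P : Ideal (MvPolynomial τ L)) (T T' : MvPolynomial τ L), P.IsPrime → IsHom P →
  Algebra.trdeg L (MvPolynomial τ L ⧸ P) = (β + 2 : ℕ) →
  T.IsHomogeneous 1 → T'.IsHomogeneous 1 →
  (∀ Q : Ideal (MvPolynomial τ L), Q.IsPrime → IsHom Q → P ≤ Q → T ∈ Q → T' ∈ Q →
    Algebra.trdeg L (MvPolynomial τ L ⧸ Q) ≤ (β : Cardinal)) →
  ∃ (d d' c : ℕ) (g : MvPolynomial τ L), 1 ≤ d ∧ g.IsHomogeneous c ∧ g ∉ P ∧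
    (∀ N w : ℕ, w + d' ≤ N → ∃ φ : MvPolynomial τ L →ₗ[L] (Fin (d * cnt β (N + c) w) → L),
      ∀ G : MvPolynomial τ L, G.IsHomogeneous N → φ G = 0 →
        g * G ∈ (Ideal.span {T, T'}) ^ w ⊔ P) ∧
    ∀ N : ℕ, d' ≤ N →
      ∃ E : Fin (d * Fintype.card (Mon (β + 2) (N - d'))) → MvPolynomial τ L,
        (∀ j, (E j).IsHomogeneous N) ∧ ∀ l : _ → L, ∑ j, C (l j) * E j ∈ P → l = 0

/-- NUX: the numerical inequality -/
def T_NUX : Prop := ∀ r β q c d : ℕ, 1 ≤ r → β + 2 ≤ 2 * r → 32 * r ^ 4 ≤ q + 2 * r →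
  ∃ N w : ℕ, w + d ≤ N ∧ q * cnt β (N + c) w < Fintype.card (Mon (β + 2) (N - d)) ∧
    4 * r * (N + q * c) < q * w

/-- PEO: a form with many zeros of high order -/
def T_PEO : Prop := ∀ (L τ : Type) [Field L] [Infinite L] [Fintype τ] (r β q : ℕ)
  (P : Ideal (MvPolynomial τ L)) (T T' : Fin q → MvPolynomial τ L), 1 ≤ r → β + 2 ≤ 2 * r →
  32 * r ^ 4 ≤ q + 2 * r → P.IsPrime → IsHom P →
  Algebra.trdeg L (MvPolynomial τ L ⧸ P) = (β + 2 : ℕ) →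
  (∀ i, (T i).IsHomogeneous 1) → (∀ i, (T' i).IsHomogeneous 1) →
  (∀ i, ∀ Q : Ideal (MvPolynomial τ L), Q.IsPrime → IsHom Q → P ≤ Q → T i ∈ Q → T' i ∈ Q →
    Algebra.trdeg L (MvPolynomial τ L ⧸ Q) ≤ (β : Cardinal)) →
  ∃ (N w c : ℕ) (G : MvPolynomial τ L) (g : Fin q → MvPolynomial τ L),
    1 ≤ N ∧ 4 * r * (N + q * c) < q * w ∧ G.IsHomogeneous N ∧ G ∉ P ∧
    ∀ i, (g i).IsHomogeneous c ∧ g i ∉ P ∧ g i * G ∈ (Ideal.span {T i, T' i}) ^ w ⊔ P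

end Pool.Agent.H30.AV
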