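import Pool.Agent.H30.AV.Targets

/-!
# MP_70ba79_ag: targets of the board `avr_modules`, groups B (generic hyperplanes) and C (general
hyperplanes)
-/

set_option autoImplicit false

namespace Pool.Agent.H30.AV

open MvPolynomial SC Pool.Agent.H27.LV

/-! ### Group B -/

/-- BCH: base change of a homogeneous prime ideal to `L = k(α)` -/
def T_BCH : Prop := ∀ (k : Type) [Field k] (A τ : Type) [Finite A] [Finite τ]
  (P : Ideal (MvPolynomial τ k)), P.IsPrime → IsHom P →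
  ∀ (L : Type) [Field L] [Algebra k L] (α : A → L), AlgebraicIndependent k α →
  (∀ z : L, ∃ f g : MvPolynomial A k, aeval α g ≠ 0 ∧ z * aeval α g = aeval α f) →
  ∃ P' : Ideal (MvPolynomial τ L), P'.IsPrime ∧ IsHom P' ∧
    Algebra.trdeg L (MvPolynomial τ L ⧸ P') = Algebra.trdeg k (MvPolynomial τ k ⧸ P) ∧
    ∀ G : MvPolynomial A (MvPolynomial τ k), ev α G ∈ P' ↔ ∀ m, coeff m G ∈ P

/-- LRL: algebraically independent elements `α` over `k` which satisfy a linear relation over `F` -/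
def T_LR1 : Prop := ∀ (k Ω : Type) [Field k] [Field Ω] [Algebra k Ω] (A : Type) [Fintype A]
  (α : A → Ω) (F : IntermediateField k Ω) (u : A → Ω), (∀ s, u s ∈ F) → u ≠ 0 →
  ∑ s, u s * α s = 0 → Algebra.trdeg F (IntermediateField.adjoin F (Set.range α)) + 1 ≤
    (Fintype.card A : Cardinal)

/-- LR2: the same with two independent relations -/
def T_LR2 : Prop := ∀ (k Ω : Type) [Field k] [Field Ω] [Algebra k Ω] (A : Type) [Fintype A]
  (α : A → Ω) (F : IntermediateField k Ω) (u u' : A → Ω), (∀ s, u s ∈ F) → (∀ s, u' s ∈ F) →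
  LinearIndependent Ω ![u, u'] → ∑ s, u s * α s = 0 → ∑ s, u' s * α s = 0 →
  Algebra.trdeg F (IntermediateField.adjoin F (Set.range α)) + 2 ≤ (Fintype.card A : Cardinal)

/-- SGR: a point of `P` with coordinates in `Ω`, normalised: it has rank one and its ratios have
transcendence degree at most `β + 1` over `k`, at most `β` if the entries of the row `0` are zero -/
def T_SGR : Prop := ∀ (k Ω : Type) [Field k] [Field Ω] [Algebra k Ω] (n β : ℕ)
  (P : Ideal (MvPolynomial (Zv n) k)) (ζ : Zv n → Ω), P.IsPrime → IsHom P → Seg P →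
  (∃ j : Fin n, X (0, j) ∉ P) →
  Algebra.trdeg k (MvPolynomial (Zv n) k ⧸ P) ≤ (β + 2 : ℕ) → (∀ g ∈ P, aeval ζ g = 0) →
  ζ ≠ 0 → ∃ (s0 : Fin (n + 1)) (j0 : Fin n) (lam : Ω) (ξ : Fin (n + 1) → Ω) (η : Fin n → Ω),
    lam ≠ 0 ∧ ξ s0 = 1 ∧ η j0 = 1 ∧ (∀ s j, ζ (s, j) = lam * (ξ s * η j)) ∧
    Algebra.trdeg k (IntermediateField.adjoin k (Set.range ξ ∪ Set.range η)) ≤ (β + 1 : ℕ) ∧
    (ξ 0 = 0 → Algebra.trdeg k (IntermediateField.adjoin k (Set.range ξ ∪ Set.range η)) ≤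
      (β : Cardinal))

/-- TRD: `T1 i`, `T2 i` are part of a system of parameters -/
def T_TRD : Prop := ∀ (k : Type) [Field k] (n q β : ℕ) (P : Ideal (MvPolynomial (Zv n) k)),
  P.IsPrime → IsHom P → Seg P → (∃ j : Fin n, X (0, j) ∉ P) →
  Algebra.trdeg k (MvPolynomial (Zv n) k ⧸ P) ≤ (β + 2 : ℕ) →
  ∀ (L : Type) [Field L] [Algebra k L] (α : Av q n → L), AlgebraicIndependent k α →
  (∀ z : L, ∃ f g : MvPolynomial (Av q n) k, aeval α g ≠ 0 ∧ z * aeval α g = aeval α f) →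
  ∀ (i : Fin q) (Q : Ideal (MvPolynomial (Zv n) L)), Q.IsPrime → IsHom Q →
  (∀ g ∈ P, MvPolynomial.map (algebraMap k L) g ∈ Q) → ev α (T1 k n q i) ∈ Q →
  ev α (T2 k n q i) ∈ Q → Algebra.trdeg L (MvPolynomial (Zv n) L ⧸ Q) ≤ (β : Cardinal)

/-- PEX: a form `G` on `P` with zeros of high order on generic hyperplanes -/
def T_PEX : Prop := ∀ (k : Type) [Field k] [Infinite k] (n r q β : ℕ)
  (P : Ideal (MvPolynomial (Zv n) k)), 1 ≤ r → β + 2 ≤ 2 * r → 32 * r ^ 4 ≤ q + 2 * r →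
  P.IsPrime → IsHom P → Seg P → (∃ j : Fin n, X (0, j) ∉ P) →
  Algebra.trdeg k (MvPolynomial (Zv n) k ⧸ P) = (β + 2 : ℕ) →
  ∃ (N w c : ℕ) (G : MvPolynomial (Av q n) (MvPolynomial (Zv n) k))
    (g : Fin q → MvPolynomial (Av q n) (MvPolynomial (Zv n) k)),
    1 ≤ N ∧ 4 * r * (N + q * c) < q * w ∧ HomZ N G ∧ (∀ i, HomZ c (g i)) ∧
    ¬ InP P (G * ∏ i, g i) ∧
    ∀ i, ∃ (e : ℕ) (h : ℕ → MvPolynomial (Av q n) (MvPolynomial (Zv n) k)),
      e + w = N + c ∧ (∀ j, HomZ e (h j)) ∧ InP P (g i * G -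
        ∑ j ∈ Finset.range (w + 1), T1 k n q i ^ j * T2 k n q i ^ (w - j) * h j)

/-! ### Group C -/

/-- BLK: if the `γ` generate a field of transcendence degree at most `m`, then at least `q - m` of
the `q` blocks of independent elements stay independent over it -/
def T_BLK : Prop := ∀ (k Ω : Type) [Field k] [Field Ω] [Algebra k Ω] (q q0 m : ℕ) (ρ τ : Type)
  [Finite ρ] [Finite τ] (a : Fin q × ρ → Ω) (γ : τ → Ω), AlgebraicIndependent k a →
  Algebra.trdeg k (IntermediateField.adjoin k (Set.range γ)) ≤ (m : Cardinal) → q0 + m ≤ q →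
  ∃ I : Fin q0 → Fin q, Function.Injective I ∧
    AlgebraicIndependent (IntermediateField.adjoin k (Set.range γ))
      fun p : Fin q0 × ρ => a (I p.1, p.2)

/-- GEN: specialisation of the coefficients -/
def T_GEN : Prop := ∀ (k : Type) [Field k] [Infinite k] (n q q0 m : ℕ)
  (P : Ideal (MvPolynomial (Zv n) k)) (Θ : MvPolynomial (Av q0 n) (MvPolynomial (Zv n) k)),
  P.IsPrime → Algebra.trdeg k (MvPolynomial (Zv n) k ⧸ P) ≤ (m : Cardinal) → q0 + m ≤ q →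
  ∃ Δ : MvPolynomial (Fin q × Fin (n + 1)) k, Δ ≠ 0 ∧
    ∀ a : Fin q → Fin (n + 1) → k, eval (fun p => a p.1 p.2) Δ ≠ 0 →
    ∀ (K : Type) [Field K] [Algebra k K] (γ : Zv n → K), (∀ g ∈ P, aeval γ g = 0) →
    (∃ μ, aeval γ (coeff μ Θ) ≠ 0) →
    ∃ (I : Fin q0 → Fin q) (l : Fin n → k), Function.Injective I ∧
      aeval γ (sp (fun i => a (I i)) l Θ) ≠ 0

/-- CON: homogeneous relations between `r + 2` homogeneous coordinates -/
def T_CON : Prop := ∀ (k : Type) [Field k] (n r : ℕ) (Q : Set (MvPolynomial (Fin n) k)),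
  DimLE Q r → ∀ s : Fin (r + 2) → Fin (n + 1),
  ∃ (N : ℕ) (G : MvPolynomial (Fin (r + 2)) k), G ≠ 0 ∧ G.IsHomogeneous N ∧
    ∀ (F : Type) [Field F] [Algebra k F] (y : Fin n → F), (∀ g ∈ Q, aeval y g = 0) →
      aeval (fun i => xx y (s i)) G = 0

/-- GPH: at most `r` of the general hyperplanes contain a given point of the projective closure -/
def T_GPH : Prop := ∀ (k : Type) [Field k] (n r q : ℕ)
  (N : (Fin (r + 2) → Fin (n + 1)) → ℕ)
  (G : (Fin (r + 2) → Fin (n + 1)) → MvPolynomial (Fin (r + 2)) k), (∀ s, G s ≠ 0) →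
  (∀ s, (G s).IsHomogeneous (N s)) →
  ∃ Δ : MvPolynomial (Fin q × Fin (n + 1)) k, Δ ≠ 0 ∧
    ∀ a : Fin q → Fin (n + 1) → k, eval (fun p => a p.1 p.2) Δ ≠ 0 →
    ∀ p : Fin (n + 1) → k, p ≠ 0 → (∀ s, eval (fun i => p (s i)) (G s) = 0) →
    ∀ I : Finset (Fin q), (∀ i ∈ I, ∑ j, a i j * p j = 0) → I.card ≤ r

/-- GPV: at every place of a curve at most `r` of the general hyperplanes vanish -/
def T_GPV : Prop := ∀ (k : Type) [Field k] [IsAlgClosed k] [CharZero k] (n r q : ℕ)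
  (Q : Set (MvPolynomial (Fin n) k)), DimLE Q r →
  ∃ Δ : MvPolynomial (Fin q × Fin (n + 1)) k, Δ ≠ 0 ∧
    ∀ a : Fin q → Fin (n + 1) → k, eval (fun p => a p.1 p.2) Δ ≠ 0 →
    ∀ (K : Type) [Field K] [Algebra k K] [Algebra.EssFiniteType k K], Algebra.trdeg k K = 1 →
    ∀ (y : Fin n → K), (∀ g ∈ Q, aeval y g = 0) → (∀ i, ell (a i) (xx y) ≠ 0) →
    ∀ (v : DV k K) (I : Finset (Fin q)),
      (∀ i ∈ I, 0 < v.ord (ell (a i) (xx y)) + poleOrder v y) → I.card ≤ r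

end Pool.Agent.H30.AV
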